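import Pool.Agent.Run7.h41.NF.Iface

set_option autoImplicit false

/-! # Project NF, piece PZR: lines against the walls `H j` -/

namespace Run7.h858.NF

open Run7.h41.NF
open Run7.h955 (Ev Thru Ins am cj)

variable {n : ℕ}

theorem im_mem (φ : MulAut (FG n)) (A : Set (FG n)) (y : FG n) : y ∈ im φ A ↔ φ⁻¹ y ∈ A := Iff.rfl

theorem im_compl (φ : MulAut (FG n)) (A : Set (FG n)) : im φ Aᶜ = (im φ A)ᶜ := rfl

theorem tr_compl (g : FG n) (A : Set (FG n)) : tr g Aᶜ = (tr g A)ᶜ := rfl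

theorem im_tr (φ : MulAut (FG n)) (g : FG n) (A : Set (FG n)) :
    im φ (tr g A) = tr (φ g) (im φ A) := by
  ext y
  change g⁻¹ * φ⁻¹ y ∈ A ↔ φ⁻¹ ((φ g)⁻¹ * y) ∈ A
  rw [map_mul, map_inv]
  simp

theorem sub_tr {A B : Set (FG n)} (h : h41.NF.Sub A B) (g : FG n) : h41.NF.Sub (tr g A) (tr g B) := by
  have : (tr g A \ tr g B) = (fun x => g⁻¹ * x) ⁻¹' (A \ B) := rfl
  unfold h41.NF.Sub
  rw [this]
  exact Set.Finite.preimage (mul_right_injective g⁻¹).injOn h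

theorem sub_compl {A B : Set (FG n)} (h : h41.NF.Sub A B) : h41.NF.Sub Bᶜ Aᶜ := by
  have : (Bᶜ \ Aᶜ) = A \ B := by
    ext x
    simp only [Set.mem_sdiff, Set.mem_compl_iff, not_not]
    tauto
  unfold h41.NF.Sub
  rw [this]
  exact h

theorem sub_of_subset {A B : Set (FG n)} (h : A ⊆ B) : h41.NF.Sub A B := by
  unfold h41.NF.Sub
  rw [Set.diff_eq_empty.2 h]
  exact Set.finite_empty

theorem t_PZR : S_SH → S_FCB → S_EVB → S_WAL → S_AXI → S_AX1 → S_HYP → S_CEN → S_POS → S_PZR := by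
  intro hSH hFCB hEVB hWAL hAXI hAX1 hHYP hCEN hPOS n ψ j h1 h2
  obtain ⟨shtr, shc, -, -, -, -, -, -, -, -, -⟩ := hSH n
  obtain ⟨-, -, -, -, fcsh⟩ := hFCB n
  obtain ⟨evinj, evor, evnot, evsub, -, -, evim, -, -, -⟩ := hEVB n
  obtain ⟨-, -, -, walltr, wallim, wallsh, -, -, -, -⟩ := hWAL n
  obtain ⟨-, -, -, -, -, -, -, -, trH, monoH, -, -, -, xne, -⟩ := hAXI n
  obtain ⟨-, cen2, -, -⟩ := hCEN n
  have yne : ψ (xx n) ≠ 1 := by
    intro h
    exact xne ((map_eq_one_iff ψ ψ.injective).1 h)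
  -- orientation
  have hjle : j ≤ j + NN n + 2 := by
    have : (0 : ℤ) ≤ (NN n : ℤ) := Int.natCast_nonneg _
    omega
  obtain ⟨ε, hε, hu1, hu2⟩ : ∃ ε : ℤ, (ε = 1 ∨ ε = -1) ∧ Ev (ψ (xx n) ^ ε) (H n (j + NN n + 2)) ∧
      Ev (ψ (xx n) ^ ε)⁻¹ (H n j)ᶜ := by
    have hsub : h41.NF.Sub (H n (j + NN n + 2)) (H n j) := sub_of_subset (monoH _ _ hjle)
    have yne' : (ψ (xx n))⁻¹ ≠ 1 := inv_ne_one.2 yne
    rcases h1 with h1 | h1 <;> rcases h2 with h2 | h2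
    · exact ⟨1, Or.inl rfl, by simpa using h2.1, by simpa using h1.2⟩
    · exact absurd (by simpa using h1.2) (evnot _ _ (evsub _ _ _ yne' h2.1 hsub))
    · have h3 := h1.2
      rw [inv_inv] at h3
      exact absurd h3 (evnot _ _ (evsub _ _ _ yne h2.1 hsub))
    · exact ⟨-1, Or.inr rfl, by simpa using h2.1, by simpa using h1.2⟩
  have une : ψ (xx n) ^ ε ≠ 1 := by
    rcases hε with h | h <;> subst h
    · simpa using yne
    · simpa using yne
  -- the element `z` and a shadow crossed by it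
  obtain ⟨z, hz⟩ : ∃ z, ψ z = xx n := ψ.surjective (xx n)
  have zne : z ≠ 1 := by
    intro h
    rw [h, map_one] at hz
    exact xne hz.symm
  obtain ⟨v, s, hvs⟩ := hHYP n z zne
  have hthru : Thru (xx n) (im ψ (Sh v s)) := by
    refine ⟨?_, ?_⟩
    · rw [← hz]
      exact (evim ψ z _).2 hvs.1
    · rw [← hz, ← map_inv, ← im_compl]
      exact (evim ψ z⁻¹ _).2 hvs.2
  obtain ⟨c, hc1, hc2⟩ := hPOS n _ (wallim _ ψ (wallsh v s)) hthru
  -- the translates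
  have key : ∀ k : ℤ, j ≤ c + k → c + k ≤ j + NN n →
      Thru (xx n ^ ε) (Sh (z ^ k * v) s) := by
    intro k hk1 hk2
    have e1 : tr (xx n ^ k) (im ψ (Sh v s)) = im ψ (Sh (z ^ k * v) s) := by
      rw [← shtr, im_tr, map_zpow, hz]
    have a1 : h41.NF.Sub (H n (c + 2 + k)) (im ψ (Sh (z ^ k * v) s)) := by
      have := sub_tr hc1 (xx n ^ k)
      rw [trH, e1] at this
      rwa [show c + 2 + k = k + (c + 2) by ring]
    have a2 : h41.NF.Sub (im ψ (Sh (z ^ k * v) s)) (H n (c + k)) := by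
      have := sub_tr hc2 (xx n ^ k)
      rw [trH, e1] at this
      rwa [show c + k = k + c by ring]
    have b1 : Ev (ψ (xx n) ^ ε) (im ψ (Sh (z ^ k * v) s)) := by
      refine evsub _ _ _ une (evsub _ _ _ une hu1 (sub_of_subset (monoH _ _ ?_))) a1
      linarith
    have b2 : Ev (ψ (xx n) ^ ε)⁻¹ (im ψ (Sh (z ^ k * v) s))ᶜ := by
      refine evsub _ _ _ (inv_ne_one.2 une) (evsub _ _ _ (inv_ne_one.2 une) hu2
        (sub_of_subset ?_)) (sub_compl a2)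
      exact Set.compl_subset_compl.2 (monoH _ _ hk1)
    refine ⟨(evim ψ _ _).1 ?_, (evim ψ _ _).1 ?_⟩
    · rw [map_zpow]
      exact b1
    · rw [map_inv, map_zpow]
      exact b2
  -- positions
  obtain ⟨g, hg⟩ : ∃ g : FG n, ∀ k : ℤ, j ≤ c + k → c + k ≤ j + NN n →
      ∃ (i : ℤ) (r : ℕ), r < NN n ∧ z ^ k * v * g = xx n ^ i * pr n r := by
    rcases hε with h | h
    · subst h
      refine ⟨1, fun k hk1 hk2 => ?_⟩
      have h3 := key k hk1 hk2
      rw [zpow_one] at h3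
      obtain ⟨i, r, hr, hv, -⟩ := hAX1 n _ _ h3
      exact ⟨i, r, hr, by rw [mul_one]; exact hv⟩
    · subst h
      refine ⟨el s, fun k hk1 hk2 => ?_⟩
      have h3 := key k hk1 hk2
      rw [zpow_neg, zpow_one] at h3
      have h4 : Thru (xx n) (Sh (z ^ k * v * el s) (op s)) := by
        rw [← shc]
        refine ⟨?_, ?_⟩
        · have := h3.2
          rwa [inv_inv] at this
        · rw [compl_compl]
          exact h3.1
      obtain ⟨i, r, hr, hv, -⟩ := hAX1 n _ _ h4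
      exact ⟨i, r, hr, hv⟩
  -- pigeonhole
  have hfun : ∀ t : Fin (NN n + 1), ∃ (r : Fin (NN n)) (i : ℤ),
      z ^ (j - c + (t : ℕ)) * v * g = xx n ^ i * pr n r := by
    intro t
    obtain ⟨i, r, hr, h3⟩ := hg (j - c + (t : ℕ)) (by have := Int.natCast_nonneg (t : ℕ); linarith)
      (by have : ((t : ℕ) : ℤ) ≤ (NN n : ℤ) := by exact_mod_cast Nat.lt_succ_iff.1 t.2
          linarith)
    exact ⟨⟨r, hr⟩, i, h3⟩
  choose R I hRI using hfun
  obtain ⟨t, t', htt, hR⟩ := Fintype.exists_ne_map_eq_of_card_lt R (by simp)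
  have e1 := hRI t
  have e2 := hRI t'
  rw [← hR] at e2
  have e3 : z ^ ((t' : ℤ) - (t : ℕ)) = xx n ^ (I t' - I t) := by
    have h5 : z ^ (j - c + ((t' : ℕ) : ℤ)) * v * g * (z ^ (j - c + ((t : ℕ) : ℤ)) * v * g)⁻¹ =
        z ^ (((t' : ℕ) : ℤ) - (t : ℕ)) := by
      have : z ^ (((t' : ℕ) : ℤ) - (t : ℕ)) =
          z ^ (j - c + ((t' : ℕ) : ℤ)) * (z ^ (j - c + ((t : ℕ) : ℤ)))⁻¹ := by
        rw [← zpow_neg, ← zpow_add]
        congr 1
        ring
      rw [this]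
      group
    rw [← h5, e1, e2]
    group
  have e4 : xx n ^ (((t' : ℕ) : ℤ) - (t : ℕ)) = ψ (xx n) ^ (I t' - I t) := by
    rw [← map_zpow, ← e3, map_zpow, hz]
  refine cen2 ψ _ _ ?_ e4
  intro h
  apply htt
  apply Fin.ext
  omega

end Run7.h858.NF
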